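import Mathlib
import Pool.Agent.J4H26.SI.Stm
import Pool.Agent.J4H26.KP.Lim3

set_option autoImplicit false

/-! Project SI, (I3): blocks `2 ^ m y + [0, 2 ^ m)`; Markov's inequality for the products of the proportions. -/

namespace Pool.Agent.J4H18.SI

open Finset Filter Real
open Pool.Agent.J4H39 (T od)
open Pool.Agent.J4H26.PC (InvS ct kS)
open Pool.Agent.J4H26.KP (gR inv_compl dens_compl ct_compl)
open Pool.Agent.J4H26.SI

theorem gR_nonneg (s : ℤ) (R : Set ℤ) (n : ℤ) : 0 ≤ gR s R n := by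
  unfold gR; split_ifs <;> norm_num

/-- the sign -/
theorem pos_of_mem {s : ℤ} (hs : s = 1 ∨ s = -1) {X : ℝ} {y : ℤ} (hy : y ∈ Finset.Ico ⌈kS s * X⌉ ⌈kS s * X + X⌉) {m c : ℕ}
    (hc : c < 2 ^ m) (hc0 : c ≠ 0) : 0 < s * (2 ^ m * y + c) := by
  rw [Finset.mem_Ico] at hy
  have hc' : (c : ℤ) < 2 ^ m := by exact_mod_cast hc
  have hc0' : (0 : ℤ) < c := by omega
  have hp : (0 : ℤ) < 2 ^ m := by positivity
  rcases hs with rfl | rfl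
  · have h0 : kS 1 = 0 := by simp [kS]
    rw [h0, zero_mul, Int.ceil_zero] at hy
    have : 0 ≤ 2 ^ m * y := mul_nonneg hp.le hy.1
    linarith
  · have h0 : kS (-1) = -1 := by unfold kS; rw [if_neg (by norm_num)]
    rw [h0] at hy
    have h1 : (-1 : ℝ) * X + X = 0 := by ring
    rw [h1, Int.ceil_zero] at hy
    have h2 : y ≤ -1 := by omega
    have h3 : 2 ^ m * y ≤ 2 ^ m * (-1) := mul_le_mul_of_nonneg_left h2 hp.le
    linarith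

open Classical in
theorem gR_lb {s : ℤ} (hs : s = 1 ∨ s = -1) {R : Set ℤ} {X : ℝ} {y : ℤ} (hy : y ∈ Finset.Ico ⌈kS s * X⌉ ⌈kS s * X + X⌉) {m c : ℕ}
    (hc : c < 2 ^ m) :
    1 - (if (2 ^ m * y + (c : ℤ)) ∈ R then (1 : ℝ) else 0) - (if c = 0 then (1 : ℝ) else 0) ≤ gR s Rᶜ (2 ^ m * y + c) := by
  have h0 := gR_nonneg s Rᶜ (2 ^ m * y + c)
  by_cases hc0 : c = 0
  · rw [if_pos hc0]
    split_ifs <;> linarith
  · rw [if_neg hc0]
    by_cases hR : (2 ^ m * y + (c : ℤ)) ∈ R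
    · rw [if_pos hR]; linarith
    · rw [if_neg hR]
      have h1 : gR s Rᶜ (2 ^ m * y + c) = 1 := by
        unfold gR
        rw [if_pos ⟨pos_of_mem hs hy hc hc0, hR⟩]
      rw [h1]; norm_num

open Classical in
theorem sum_lb {s : ℤ} (hs : s = 1 ∨ s = -1) {R : Set ℤ} {X : ℝ} {y : ℤ} (hy : y ∈ Finset.Ico ⌈kS s * X⌉ ⌈kS s * X + X⌉) {m : ℕ}
    (S : Finset ℕ) (hS : S ⊆ Finset.range (2 ^ m)) :
    (#S : ℝ) - ({c : ℕ | c < 2 ^ m ∧ 2 ^ m * y + c ∈ R}.ncard : ℝ) - 1 ≤ ∑ c ∈ S, gR s Rᶜ (2 ^ m * y + c) := by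
  have h1 : ∑ c ∈ S, (1 - (if (2 ^ m * y + (c : ℤ)) ∈ R then (1 : ℝ) else 0) - (if c = 0 then (1 : ℝ) else 0)) ≤
      ∑ c ∈ S, gR s Rᶜ (2 ^ m * y + c) := sum_le_sum fun c hc => gR_lb hs hy (mem_range.1 (hS hc))
  rw [sum_sub_distrib, sum_sub_distrib] at h1
  have h2 : ∑ c ∈ S, (1 : ℝ) = #S := by simp
  have h3 : ∑ c ∈ S, (if (2 ^ m * y + (c : ℤ)) ∈ R then (1 : ℝ) else 0) ≤
      ({c : ℕ | c < 2 ^ m ∧ 2 ^ m * y + c ∈ R}.ncard : ℝ) := by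
    rw [← sum_filter, sum_const, nsmul_eq_mul, mul_one]
    have hfin : {c : ℕ | c < 2 ^ m ∧ 2 ^ m * y + (c : ℤ) ∈ R}.Finite := (Set.finite_lt_nat (2 ^ m)).subset (fun c hc => hc.1)
    have h5 : ((S.filter fun c : ℕ => (2 ^ m * y + (c : ℤ)) ∈ R : Finset ℕ) : Set ℕ).ncard ≤
        {c : ℕ | c < 2 ^ m ∧ 2 ^ m * y + (c : ℤ) ∈ R}.ncard :=
      Set.ncard_le_ncard (by intro c hc; rw [mem_coe, mem_filter] at hc; exact ⟨mem_range.1 (hS hc.1), hc.2⟩) hfin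
    rw [Set.ncard_coe_finset] at h5
    exact_mod_cast h5
  have h4 : ∑ c ∈ S, (if c = 0 then (1 : ℝ) else 0) ≤ 1 := by
    rw [sum_ite_eq' S 0 (fun _ => (1 : ℝ))]; split_ifs <;> norm_num
  linarith

/-- Markov's inequality for the products of the proportions -/
theorem count {s : ℤ} {R : Set ℤ} {X : ℝ} {m K : ℕ} {E w : ℝ} (hw : 0 ≤ w) (S : Fin K → Finset ℕ) (hne : ∀ i, 0 < #(S i))
    (H : ∀ c : Fin K → ℕ, (∀ i, c i ∈ S i) →
      ∑ y ∈ Finset.Ico ⌈kS s * X⌉ ⌈kS s * X + X⌉, ∏ i, gR s Rᶜ (2 ^ m * y + (c i : ℤ)) ≤ E)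
    (B : Finset ℤ) (hB : B ⊆ Finset.Ico ⌈kS s * X⌉ ⌈kS s * X + X⌉)
    (hBw : ∀ y ∈ B, ∀ i, w * #(S i) ≤ ∑ c ∈ S i, gR s Rᶜ (2 ^ m * y + (c : ℤ))) : #B * w ^ K ≤ E := by
  have hP : 0 < ∏ i, (#(S i) : ℝ) := prod_pos fun i _ => by exact_mod_cast hne i
  have h1 : ∀ y ∈ B, w ^ K * ∏ i, (#(S i) : ℝ) ≤ ∏ i, ∑ c ∈ S i, gR s Rᶜ (2 ^ m * y + (c : ℤ)) := by
    intro y hy
    have : w ^ K * ∏ i, (#(S i) : ℝ) = ∏ i : Fin K, (w * #(S i)) := by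
      rw [prod_mul_distrib, prod_const, card_univ, Fintype.card_fin]
    rw [this]
    exact prod_le_prod (fun i _ => by positivity) (fun i _ => hBw y hy i)
  have h2 : #B * (w ^ K * ∏ i, (#(S i) : ℝ)) ≤ ∑ y ∈ B, ∏ i, ∑ c ∈ S i, gR s Rᶜ (2 ^ m * y + (c : ℤ)) := by
    rw [← nsmul_eq_mul]; exact card_nsmul_le_sum _ _ _ h1
  have h3 : ∑ y ∈ B, ∏ i, ∑ c ∈ S i, gR s Rᶜ (2 ^ m * y + (c : ℤ)) ≤
      ∑ y ∈ Finset.Ico ⌈kS s * X⌉ ⌈kS s * X + X⌉, ∏ i, ∑ c ∈ S i, gR s Rᶜ (2 ^ m * y + (c : ℤ)) :=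
    sum_le_sum_of_subset_of_nonneg hB (fun y _ _ => prod_nonneg fun i _ => sum_nonneg fun c _ => gR_nonneg _ _ _)
  have h4 : ∑ y ∈ Finset.Ico ⌈kS s * X⌉ ⌈kS s * X + X⌉, ∏ i, ∑ c ∈ S i, gR s Rᶜ (2 ^ m * y + (c : ℤ)) =
      ∑ c ∈ Fintype.piFinset S, ∑ y ∈ Finset.Ico ⌈kS s * X⌉ ⌈kS s * X + X⌉, ∏ i, gR s Rᶜ (2 ^ m * y + (c i : ℤ)) := by
    rw [sum_comm]
    refine sum_congr rfl fun y _ => ?_
    rw [prod_univ_sum]
  have h5 : ∑ c ∈ Fintype.piFinset S, ∑ y ∈ Finset.Ico ⌈kS s * X⌉ ⌈kS s * X + X⌉, ∏ i, gR s Rᶜ (2 ^ m * y + (c i : ℤ)) ≤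
      #(Fintype.piFinset S) • E := sum_le_card_nsmul _ _ _ (fun c hc => H c (Fintype.mem_piFinset.1 hc))
  rw [nsmul_eq_mul, Fintype.card_piFinset] at h5
  push_cast at h5
  have h6 : (#B * w ^ K) * ∏ i, (#(S i) : ℝ) ≤ E * ∏ i, (#(S i) : ℝ) := by
    have := (h2.trans h3).trans (h4.le.trans h5)
    linarith
  exact le_of_mul_le_mul_right h6 hP

theorem dens_le_one {s : ℤ} (hs : s = 1 ∨ s = -1) {R : Set ℤ} {δ : ℝ} (h : Tendsto (fun N : ℕ => ct s R N / N) atTop (nhds δ)) :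
    δ ≤ 1 := by
  refine le_of_tendsto' h fun N => ?_
  have h1 := ct_compl hs R N
  have h2 : 0 ≤ ct s Rᶜ N := Nat.cast_nonneg _
  rcases Nat.eq_zero_or_pos N with rfl | hN
  · simp
  · have hN0 : (0 : ℝ) < N := by exact_mod_cast hN
    rw [div_le_one hN0]; linarith

/-- (I3) -/
theorem t_BLO (hC : S_CLS) (hN : S_NUM) : S_BLO := by
  intro η κ δ₀ hη hκ hδ₀
  set δ₁ : ℝ := min δ₀ 1 with hδ₁
  have d0 : 0 < δ₁ := lt_min hδ₀ one_pos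
  have d1 : δ₁ ≤ 1 := min_le_right _ _
  have d2 : δ₁ ≤ δ₀ := min_le_left _ _
  set κ₁ : ℝ := min κ 1 with hκ₁
  have k0 : 0 < κ₁ := lt_min hκ one_pos
  have k1 : κ₁ ≤ 1 := min_le_right _ _
  have k2 : κ₁ ≤ κ := min_le_left _ _
  set w : ℝ := 1 - δ₁ / 2 with hw
  have w0 : 0 < w := by rw [hw]; linarith
  obtain ⟨K, hK⟩ := exists_pow_lt_of_lt_one (show 0 < η / 4 by positivity)
    (show (1 - δ₁) / w < 1 by rw [div_lt_one w0]; linarith)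
  have hK' : (1 - δ₁) ^ K ≤ η / 4 * w ^ K := by
    rw [div_pow, div_lt_iff₀ (pow_pos w0 K)] at hK; exact hK.le
  have hwK : 0 < w ^ K := pow_pos w0 K
  obtain ⟨G, hG, hL1⟩ := hC K (η / 4 * w ^ K) (by positivity)
  obtain ⟨κ', hκ', hm1⟩ := hN (κ₁ / 2) (by positivity)
  set κ'' : ℝ := min κ' 1 with hκ''
  have q0 : 0 < κ'' := lt_min hκ' one_pos
  have q1 : κ'' ≤ 1 := min_le_right _ _
  have q2 : κ'' ≤ κ' := min_le_left _ _
  have hpow : ∀ᶠ m : ℕ in atTop, 4 / δ₁ ≤ (2 : ℝ) ^ (κ₁ / 2 * m) :=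
    ((tendsto_rpow_atTop_of_base_gt_one (2 : ℝ) one_lt_two).comp
      (tendsto_natCast_atTop_atTop.const_mul_atTop (half_pos k0))).eventually_ge_atTop _
  obtain ⟨m₀, hm₀⟩ := eventually_atTop.1 (hm1.and hpow)
  refine ⟨(2 * K * G + 2 * K + 2) / κ'', by positivity, ?_⟩
  have hsq : ∀ᶠ L : ℕ in atTop, (m₀ : ℝ) ≤ √(L : ℝ) := (tendsto_sqrt_atTop.comp tendsto_natCast_atTop_atTop).eventually_ge_atTop _
  filter_upwards [hL1, hsq, eventually_ge_atTop 1] with L hL hLm hL1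
  intro s hs R hR δ hδ hδδ X hX hX1 hX2 m hm hm2
  have hL1' : (1 : ℝ) ≤ L := by exact_mod_cast hL1
  have hsq1 : 1 ≤ √(L : ℝ) := Real.one_le_sqrt.2 hL1'
  have hX1' : 1 ≤ X := by
    have := (Real.le_logb_iff_rpow_le one_lt_two hX).1 hX1
    exact (Real.one_le_rpow one_le_two (by linarith)).trans this
  -- the size of `m`
  have hm3 : (2 * K * G + 2 * K + 2) * √(L : ℝ) ≤ κ'' * m := by
    rw [div_mul_eq_mul_div, div_le_iff₀ q0] at hm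
    linarith
  have hKG : 0 ≤ 2 * (K : ℝ) * G := by positivity
  have hKn : 0 ≤ (K : ℝ) := Nat.cast_nonneg _
  set d : ℕ := ⌈G * √(L : ℝ)⌉₊ with hd
  have hd1 : G * √(L : ℝ) ≤ d := Nat.le_ceil _
  have hd2 : (d : ℝ) ≤ G * √(L : ℝ) + 1 := (Nat.ceil_lt_add_one (by positivity)).le
  have hKd : 2 * (K : ℝ) * d + 1 ≤ κ'' * m := by
    have e1 : 2 * (K : ℝ) * d ≤ 2 * K * (G * √(L : ℝ) + 1) := mul_le_mul_of_nonneg_left hd2 (by positivity)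
    have e2 : (2 * (K : ℝ) + 2) * 1 ≤ (2 * K + 2) * √(L : ℝ) := mul_le_mul_of_nonneg_left hsq1 (by positivity)
    nlinarith
  have hmn : (0 : ℝ) ≤ m := Nat.cast_nonneg _
  have hKd' : 2 * (K : ℝ) * d + 1 ≤ m := hKd.trans (by nlinarith)
  have hKd'' : 2 * K * d + 1 ≤ m := by exact_mod_cast hKd'
  have hmm : m₀ ≤ m := by
    have e1 : √(L : ℝ) ≤ (2 * K * G + 2 * K + 2) * √(L : ℝ) := by nlinarith
    have e2 : κ'' * m ≤ m := by nlinarith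
    have : (m₀ : ℝ) ≤ m := hLm.trans (e1.trans (hm3.trans e2))
    exact_mod_cast this
  obtain ⟨hnum, hp4⟩ := hm₀ m hmm
  -- the numbers of odd steps
  have hid : ∀ i : Fin K, (i : ℕ) * d ≤ K * d := fun i => Nat.mul_le_mul_right d i.2.le
  have hid' : ∀ i : Fin K, (i : ℕ) * d ≤ m / 2 := fun i => by
    have := hid i
    have e : 2 * K * d = 2 * (K * d) := by ring
    omega
  set D : Fin K → ℕ := fun i => m / 2 - i * d with hD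
  have hDr : ∀ i, (D i : ℝ) = (m / 2 : ℕ) - i * d := fun i => by
    rw [hD]; show ((m / 2 - i * d : ℕ) : ℝ) = _
    rw [Nat.cast_sub (hid' i)]; push_cast; ring
  have hm2a : ((m / 2 : ℕ) : ℝ) * 2 ≤ m := by exact_mod_cast Nat.div_mul_le_self m 2
  have hm2b : (m : ℝ) ≤ (m / 2 : ℕ) * 2 + 1 := by
    have : m ≤ m / 2 * 2 + 1 := by omega
    exact_mod_cast this
  have hDn : ∀ i, |2 * (D i : ℝ) - m| ≤ κ' * m := fun i => by
    rw [hDr, abs_le]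
    have e1 : ((i : ℕ) : ℝ) * d ≤ K * d := by exact_mod_cast hid i
    have e2 : 0 ≤ ((i : ℕ) : ℝ) * d := by positivity
    have e3 : κ'' * m ≤ κ' * m := mul_le_mul_of_nonneg_right q2 hmn
    have e4 : 2 * (K : ℝ) * d = 2 * (K * d) := by ring
    constructor <;> linarith
  have hDs : ∀ i j, i ≠ j → G * √(L : ℝ) ≤ |(D i : ℝ) - D j| := fun i j hij => by
    rw [hDr, hDr]
    have e1 : ((m / 2 : ℕ) : ℝ) - i * d - ((m / 2 : ℕ) - j * d) = ((j : ℕ) - (i : ℕ)) * d := by ring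
    rw [e1, abs_mul, Nat.abs_cast]
    have e2 : (1 : ℝ) ≤ |((j : ℕ) : ℝ) - (i : ℕ)| := by
      have e3 : ((j : ℕ) : ℤ) - (i : ℕ) ≠ 0 := by
        intro h
        apply hij
        apply Fin.ext
        omega
      have := Int.one_le_abs e3
      exact_mod_cast this
    calc G * √(L : ℝ) ≤ 1 * d := by rw [one_mul]; exact hd1
      _ ≤ _ := mul_le_mul_of_nonneg_right e2 (Nat.cast_nonneg _)
  set S : Fin K → Finset ℕ := fun i => (Finset.range (2 ^ m)).filter fun c : ℕ => od m (c : ℤ) = D i with hS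
  have hSn : ∀ i, (2 : ℝ) ^ ((1 - κ₁ / 2) * m) ≤ #(S i) := fun i => hnum (D i) (hDn i)
  have hne : ∀ i, 0 < #(S i) := fun i => by
    have : (0 : ℝ) < #(S i) := (Real.rpow_pos_of_pos two_pos _).trans_le (hSn i)
    exact_mod_cast this
  have hδ1 : δ ≤ 1 := dens_le_one hs hδ
  have hE : ∀ c : Fin K → ℕ, (∀ i, c i ∈ S i) →
      ∑ y ∈ Finset.Ico ⌈kS s * X⌉ ⌈kS s * X + X⌉, ∏ i, gR s Rᶜ (2 ^ m * y + (c i : ℤ)) ≤ η / 2 * X * w ^ K := by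
    intro c hc
    have h1 := hL s hs Rᶜ (inv_compl hR) (1 - δ) (dens_compl hs hδ) X hX hX1 hX2 m D hm2 hDs (fun i => (c i : ℤ)) (fun i => by
      have := hc i
      rw [hS, mem_filter, mem_range] at this
      exact ⟨by positivity, by exact_mod_cast this.1, this.2⟩)
    rw [max_eq_left hX1'] at h1
    have h2 := (abs_le.1 h1).2
    have h3 : (1 - δ) ^ K ≤ (1 - δ₁) ^ K := pow_le_pow_left₀ (by linarith) (by linarith) K
    have h4 : (∑ y ∈ Finset.Ico ⌈kS s * X⌉ ⌈kS s * X + X⌉, ∏ i, gR s Rᶜ (2 ^ m * y + (c i : ℤ))) / X ≤ η / 2 * w ^ K := by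
      linarith
    rw [div_le_iff₀ hX] at h4
    linarith
  have hfin := count (s := s) (R := R) (X := X) (m := m) w0.le S hne hE
    ((Finset.Ico ⌈kS s * X⌉ ⌈kS s * X + X⌉).filter fun y : ℤ =>
    ({c : ℕ | c < 2 ^ m ∧ 2 ^ m * y + c ∈ R}.ncard : ℝ) < (2 : ℝ) ^ ((1 - κ) * m)) (filter_subset _ _) (by
    intro y hy i
    rw [mem_filter] at hy
    refine le_trans ?_ (sum_lb hs hy.1 (S i) (filter_subset _ _))
    have a1 : (2 : ℝ) ^ ((1 - κ) * m) ≤ (2 : ℝ) ^ ((1 - κ₁) * m) :=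
      Real.rpow_le_rpow_of_exponent_le one_le_two (mul_le_mul_of_nonneg_right (by linarith) hmn)
    have a2 : (1 : ℝ) ≤ (2 : ℝ) ^ ((1 - κ₁) * m) := Real.one_le_rpow one_le_two (mul_nonneg (by linarith) hmn)
    have a3 : (2 : ℝ) ^ ((1 - κ₁ / 2) * m) = (2 : ℝ) ^ ((1 - κ₁) * m) * (2 : ℝ) ^ (κ₁ / 2 * m) := by
      rw [← Real.rpow_add two_pos]; congr 1; ring
    have a4 : (2 : ℝ) ^ ((1 - κ₁) * m) * (4 / δ₁) ≤ #(S i) := by
      refine le_trans ?_ (hSn i)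
      rw [a3]
      exact mul_le_mul_of_nonneg_left hp4 (by linarith)
    have a5 : (2 : ℝ) ^ ((1 - κ₁) * m) * 2 ≤ δ₁ / 2 * #(S i) := by
      have := mul_le_mul_of_nonneg_left a4 (half_pos d0).le
      refine le_trans (le_of_eq ?_) this
      field_simp
      ring
    rw [hw]
    linarith [hy.2])
  have h9 : (#((Finset.Ico ⌈kS s * X⌉ ⌈kS s * X + X⌉).filter fun y : ℤ =>
    ({c : ℕ | c < 2 ^ m ∧ 2 ^ m * y + c ∈ R}.ncard : ℝ) < (2 : ℝ) ^ ((1 - κ) * m)) : ℝ) ≤ η / 2 * X :=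
    le_of_mul_le_mul_right hfin hwK
  have h10 : 0 < η * X := by positivity
  linarith

end Pool.Agent.J4H18.SI
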